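import Pool.Agent.Helper17.PP.GoalsC3

/-!
# Packet PP-C_SM3 (helper39 for helper17)
-/

set_option autoImplicit false

namespace Pool.Agent.Helper39.PP

open Finset Pool.Agent.Helper17.PP

/-- `2^a` beats powers. -/
theorem pow_beats (m : ℕ) : ∃ c : ℝ, 0 < c ∧ ∀ a : ℕ, c * ((a : ℝ) + 1) ^ m ≤ 2 ^ a := by
  refine ⟨(Real.log 2) ^ m / (2 * m.factorial), ?_, fun a => ?_⟩
  · have : 0 < Real.log 2 := Real.log_pos (by norm_num)
    positivity
  · have hl : 0 < Real.log 2 := Real.log_pos (by norm_num)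
    have h1 := Real.pow_div_factorial_le_exp (((a : ℝ) + 1) * Real.log 2) (by positivity) m
    have h2 : Real.exp (((a : ℝ) + 1) * Real.log 2) = 2 * 2 ^ a := by
      rw [mul_comm, Real.exp_mul, Real.exp_log (by norm_num)]
      rw [Real.rpow_add (by norm_num), Real.rpow_natCast, Real.rpow_one]
      ring
    rw [h2, mul_pow] at h1
    have h3 : (Real.log 2) ^ m / (2 * m.factorial) * ((a : ℝ) + 1) ^ m =
        (((a : ℝ) + 1) ^ m * Real.log 2 ^ m / m.factorial) / 2 := by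
      field_simp
    rw [h3]
    linarith

/-- The first part: `((j+1)/(th E j + 1))^δ ≤ D/(j+1)`. -/
theorem th_bound (K E : ℕ) (hK : 1 ≤ K) (hE : 1 ≤ E) : ∃ D : ℝ, 0 < D ∧ ∀ j : ℕ,
    (((j + 1 : ℕ) : ℝ) / (th E j + 1 : ℕ)) ^ (1 / (2 * K) : ℝ) ≤ D / (j + 1) := by
  obtain ⟨c, hc, hca⟩ := pow_beats (2 * K + 1)
  have hE0 : (0 : ℝ) < 2 * E := by
    have : (1 : ℝ) ≤ E := by exact_mod_cast hE
    linarith
  have hK0 : (0 : ℝ) < 2 * K := by
    have : (1 : ℝ) ≤ K := by exact_mod_cast hK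
    linarith
  set c' : ℝ := c / (2 * E) ^ (2 * K + 1) with hc'
  have hc'0 : 0 < c' := by positivity
  refine ⟨(1 / c') ^ (1 / (2 * K) : ℝ), by positivity, fun j => ?_⟩
  have h1 : c' * ((j : ℝ) + 1) ^ (2 * K + 1) ≤ ((th E j + 1 : ℕ) : ℝ) := by
    have h2 := hca (j / (2 * E))
    have h3 : ((j : ℝ) + 1) ≤ (2 * E) * (((j / (2 * E) : ℕ) : ℝ) + 1) := by
      have h4 : j + 1 ≤ (2 * E) * (j / (2 * E) + 1) := by
        have := Nat.lt_mul_div_succ j (show 0 < 2 * E by omega)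
        omega
      exact_mod_cast h4
    have h5 : ((j : ℝ) + 1) ^ (2 * K + 1) ≤
        (2 * E) ^ (2 * K + 1) * (((j / (2 * E) : ℕ) : ℝ) + 1) ^ (2 * K + 1) := by
      rw [← mul_pow]
      exact pow_le_pow_left₀ (by positivity) h3 _
    calc c' * ((j : ℝ) + 1) ^ (2 * K + 1)
        ≤ c' * ((2 * E) ^ (2 * K + 1) * (((j / (2 * E) : ℕ) : ℝ) + 1) ^ (2 * K + 1)) :=
          mul_le_mul_of_nonneg_left h5 hc'0.le
      _ = c * (((j / (2 * E) : ℕ) : ℝ) + 1) ^ (2 * K + 1) := by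
          rw [hc']; field_simp
      _ ≤ 2 ^ (j / (2 * E)) := h2
      _ ≤ ((th E j + 1 : ℕ) : ℝ) := by
          unfold th
          push_cast
          linarith
  have h6 : ((j + 1 : ℕ) : ℝ) / (th E j + 1 : ℕ) ≤ (1 / c') * (1 / ((j : ℝ) + 1)) ^ (2 * K) := by
    calc ((j + 1 : ℕ) : ℝ) / (th E j + 1 : ℕ)
        ≤ ((j + 1 : ℕ) : ℝ) / (c' * ((j : ℝ) + 1) ^ (2 * K + 1)) :=
          div_le_div_of_nonneg_left (by positivity) (by positivity) h1
      _ = (1 / c') * (1 / ((j : ℝ) + 1)) ^ (2 * K) := by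
          push_cast
          rw [pow_succ, one_div_pow]
          field_simp
  have h7 : (((j + 1 : ℕ) : ℝ) / (th E j + 1 : ℕ)) ^ (1 / (2 * K) : ℝ) ≤
      ((1 / c') * (1 / ((j : ℝ) + 1)) ^ (2 * K)) ^ (1 / (2 * K) : ℝ) :=
    Real.rpow_le_rpow (by positivity) h6 (by positivity)
  refine h7.trans (le_of_eq ?_)
  rw [Real.mul_rpow (by positivity) (by positivity), ← Real.rpow_natCast (1 / ((j : ℝ) + 1)),
    ← Real.rpow_mul (by positivity)]
  have h8 : ((2 * K : ℕ) : ℝ) * (1 / (2 * K)) = 1 := by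
    push_cast
    field_simp
  rw [h8, Real.rpow_one]
  ring

theorem tele (j₀ s : ℕ) (h0 : 1 ≤ j₀) :
    ∑ j ∈ Ico j₀ s, (1 / j : ℝ) * (1 / (j + 1)) ≤ 1 / j₀ := by
  have h1 : ∀ s, j₀ ≤ s → ∑ j ∈ Ico j₀ s, (1 / j : ℝ) * (1 / (j + 1)) = 1 / j₀ - 1 / s := by
    intro s hs
    induction s, hs using Nat.le_induction with
    | base => simp
    | succ s hs ih =>
      rw [Finset.sum_Ico_succ_top hs, ih]
      have h2 : (0 : ℝ) < s := by exact_mod_cast (by omega : 0 < s)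
      push_cast
      field_simp
      ring
  rcases le_total j₀ s with h | h
  · rw [h1 s h]
    have : (0 : ℝ) ≤ 1 / s := by positivity
    linarith
  · rw [Finset.Ico_eq_empty (by omega), Finset.sum_empty]
    positivity

theorem harm (j₀ s : ℕ) : ∑ j ∈ Ico j₀ s, (1 / j : ℝ) ≤ 1 + Real.log s := by
  have h1 : ∑ j ∈ Ico j₀ s, (1 / j : ℝ) ≤ ∑ j ∈ range (s + 1), (1 / j : ℝ) := by
    apply Finset.sum_le_sum_of_subset_of_nonneg
    · intro j hj
      rw [Finset.mem_Ico] at hj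
      rw [Finset.mem_range]; omega
    · intro j _ _
      positivity
  have h2 : ∑ j ∈ range (s + 1), (1 / j : ℝ) = ((harmonic s : ℚ) : ℝ) := by
    rw [Finset.sum_range_succ', harmonic]
    push_cast
    simp
  rw [h2] at h1
  exact h1.trans (harmonic_le_one_add_log s)

/-- `(1 + log s) (1/(s-1))^δ → 0`. -/
theorem small (δ ε : ℝ) (hδ : 0 < δ) (hε : 0 < ε) : ∃ s₀ : ℕ, ∀ s : ℕ, s₀ ≤ s →
    (1 + Real.log s) * (1 / ((s : ℝ) - 1)) ^ δ ≤ ε := by
  have h1 : Filter.Tendsto (fun x : ℝ => (2 + 2 / δ) * x ^ (-(δ / 2))) Filter.atTop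
      (nhds ((2 + 2 / δ) * 0)) :=
    (tendsto_rpow_neg_atTop (by positivity)).const_mul _
  rw [mul_zero] at h1
  have h2 := (h1.eventually (gt_mem_nhds hε)).and (Filter.eventually_ge_atTop (1 : ℝ))
  obtain ⟨x₀, hx₀⟩ := Filter.eventually_atTop.mp h2
  refine ⟨⌈x₀⌉₊ + 1, fun s hs => ?_⟩
  have h3 : x₀ ≤ (s : ℝ) - 1 := by
    have h4 := Nat.le_ceil x₀
    have h5 : ((⌈x₀⌉₊ + 1 : ℕ) : ℝ) ≤ s := by exact_mod_cast hs
    push_cast at h5
    linarith
  obtain ⟨h6, h7⟩ := hx₀ _ h3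
  set t : ℝ := (s : ℝ) - 1 with ht
  have hs' : (s : ℝ) = t + 1 := by rw [ht]; ring
  have h8 : Real.log s ≤ 1 + Real.log t := by
    have h9 : Real.log s ≤ Real.log (2 * t) := by
      apply Real.log_le_log
      · rw [hs']; linarith
      · rw [hs']; linarith
    rw [Real.log_mul (by norm_num) (by linarith)] at h9
    have h10 : Real.log 2 ≤ 1 := by
      have := Real.log_two_lt_d9
      linarith
    linarith
  have h11 : Real.log t ≤ t ^ (δ / 2) / (δ / 2) := Real.log_le_rpow_div (by linarith) (by positivity)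
  have h12 : (1 : ℝ) ≤ t ^ (δ / 2) := Real.one_le_rpow h7 (by positivity)
  have h13 : 1 + Real.log s ≤ (2 + 2 / δ) * t ^ (δ / 2) := by
    have h14 : t ^ (δ / 2) / (δ / 2) = 2 / δ * t ^ (δ / 2) := by
      field_simp
    rw [h14] at h11
    nlinarith
  have h15 : (1 / t) ^ δ = t ^ (-(δ / 2)) * t ^ (-(δ / 2)) := by
    rw [← Real.rpow_add (by linarith), one_div, Real.inv_rpow (by linarith), ← Real.rpow_neg (by linarith)]
    congr 1
    ring
  have h16 : t ^ (δ / 2) * t ^ (-(δ / 2)) = 1 := by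
    rw [← Real.rpow_add (by linarith)]
    simp
  have h17 : 0 ≤ t ^ (-(δ / 2)) := Real.rpow_nonneg (by linarith) _
  calc (1 + Real.log s) * (1 / t) ^ δ
      ≤ (2 + 2 / δ) * t ^ (δ / 2) * (1 / t) ^ δ := by
        apply mul_le_mul_of_nonneg_right h13
        rw [h15]
        positivity
    _ = (2 + 2 / δ) * t ^ (-(δ / 2)) * (t ^ (δ / 2) * t ^ (-(δ / 2))) := by rw [h15]; ring
    _ = (2 + 2 / δ) * t ^ (-(δ / 2)) := by rw [h16, mul_one]
    _ ≤ ε := h6.le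

theorem c_sm3 : C_SM3 := by
  intro K E ε hK hE hε
  obtain ⟨D, hD, hDj⟩ := th_bound K E hK hE
  have hK0 : (0 : ℝ) < 2 * K := by
    have : (1 : ℝ) ≤ K := by exact_mod_cast hK
    linarith
  set δ : ℝ := (1 / (2 * K) : ℝ) with hδ
  have hδ0 : 0 < δ := by positivity
  refine ⟨⌈2 * D / ε⌉₊ + 1, fun j₀ hj₀ => ?_⟩
  obtain ⟨s₀, hs₀⟩ := small δ (ε / 2) hδ0 (by positivity)
  refine ⟨(s₀ + 2) ^ 2, fun L hL => ?_⟩
  set s := Nat.sqrt L with hs
  have hs1 : s₀ + 2 ≤ s := by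
    rw [hs, Nat.le_sqrt']
    exact hL
  have hs2 : s * s ≤ L := Nat.sqrt_le L
  have hpt : ∀ j ∈ Ico j₀ s, (1 / j : ℝ) *
      (((j + 1 : ℕ) : ℝ) / (min (th E j + 1) (L - j - 1) : ℕ)) ^ δ ≤
      D * ((1 / j : ℝ) * (1 / (j + 1))) + (1 / j : ℝ) * (1 / ((s : ℝ) - 1)) ^ δ := by
    intro j hj
    rw [Finset.mem_Ico] at hj
    have hj1 : (0 : ℝ) ≤ 1 / j := by positivity
    have e1 : (((j + 1 : ℕ) : ℝ) / (min (th E j + 1) (L - j - 1) : ℕ)) ^ δ ≤
        (((j + 1 : ℕ) : ℝ) / (th E j + 1 : ℕ)) ^ δ + (((j + 1 : ℕ) : ℝ) / (L - j - 1 : ℕ)) ^ δ := by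
      rcases min_cases (th E j + 1) (L - j - 1) with ⟨h, _⟩ | ⟨h, _⟩
      · rw [h]
        have : 0 ≤ (((j + 1 : ℕ) : ℝ) / (L - j - 1 : ℕ)) ^ δ := by positivity
        linarith
      · rw [h]
        have : 0 ≤ (((j + 1 : ℕ) : ℝ) / (th E j + 1 : ℕ)) ^ δ := by positivity
        linarith
    have e2 : (((j + 1 : ℕ) : ℝ) / (L - j - 1 : ℕ)) ^ δ ≤ (1 / ((s : ℝ) - 1)) ^ δ := by
      apply Real.rpow_le_rpow (by positivity) _ hδ0.le
      have e3 : s * (s - 1) ≤ L - j - 1 := by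
        have : s * (s - 1) = s * s - s := by rw [Nat.mul_sub, Nat.mul_one]
        omega
      have e4 : (s : ℝ) * ((s : ℝ) - 1) ≤ ((L - j - 1 : ℕ) : ℝ) := by
        have e5 : ((s * (s - 1) : ℕ) : ℝ) ≤ ((L - j - 1 : ℕ) : ℝ) := by exact_mod_cast e3
        rw [Nat.cast_mul, Nat.cast_sub (by omega), Nat.cast_one] at e5
        exact e5
      have e6 : (0 : ℝ) < (s : ℝ) - 1 := by
        have : (2 : ℝ) ≤ s := by exact_mod_cast (by omega : 2 ≤ s)
        linarith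
      have e7 : (0 : ℝ) < s := by linarith
      have e8 : ((j + 1 : ℕ) : ℝ) ≤ s := by exact_mod_cast (by omega : j + 1 ≤ s)
      calc ((j + 1 : ℕ) : ℝ) / (L - j - 1 : ℕ) ≤ s / (s * ((s : ℝ) - 1)) := by
            apply div_le_div₀ e7.le e8 (by positivity) e4
        _ = 1 / ((s : ℝ) - 1) := by
            field_simp
    have e9 := hDj j
    calc (1 / j : ℝ) * (((j + 1 : ℕ) : ℝ) / (min (th E j + 1) (L - j - 1) : ℕ)) ^ δ
        ≤ (1 / j : ℝ) * (D / (j + 1) + (1 / ((s : ℝ) - 1)) ^ δ) :=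
          mul_le_mul_of_nonneg_left (e1.trans (add_le_add e9 e2)) hj1
      _ = D * ((1 / j : ℝ) * (1 / (j + 1))) + (1 / j : ℝ) * (1 / ((s : ℝ) - 1)) ^ δ := by ring
  refine (Finset.sum_le_sum hpt).trans ?_
  rw [Finset.sum_add_distrib, ← Finset.mul_sum, ← Finset.sum_mul]
  have h1 := tele j₀ s (by omega)
  have h2 := harm j₀ s
  have h3 := hs₀ s (by omega)
  have h4 : D * ∑ j ∈ Ico j₀ s, (1 / j : ℝ) * (1 / (j + 1)) ≤ ε / 2 := by
    have h5 : D * (1 / j₀) ≤ ε / 2 := by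
      have h6 : 2 * D / ε ≤ j₀ := by
        have h7 := Nat.le_ceil (2 * D / ε)
        have h8 : ((⌈2 * D / ε⌉₊ + 1 : ℕ) : ℝ) ≤ j₀ := by exact_mod_cast hj₀
        push_cast at h8
        linarith
      have h9 : (0 : ℝ) < j₀ := by exact_mod_cast (by omega : 0 < j₀)
      rw [div_le_iff₀ hε] at h6
      rw [mul_one_div, div_le_iff₀ h9]
      linarith
    exact (mul_le_mul_of_nonneg_left h1 hD.le).trans h5
  have h10 : (∑ j ∈ Ico j₀ s, (1 / j : ℝ)) * (1 / ((s : ℝ) - 1)) ^ δ ≤ ε / 2 := by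
    refine le_trans ?_ h3
    apply mul_le_mul_of_nonneg_right h2
    have e6 : (0 : ℝ) < (s : ℝ) - 1 := by
      have : (2 : ℝ) ≤ s := by exact_mod_cast (by omega : 2 ≤ s)
      linarith
    positivity
  linarith

end Pool.Agent.Helper39.PP
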