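import Pool.Agent.Helper88.PP.Goals

/-!
# The second moment method (packet CH of the positive proportion of large prime gaps)
-/

set_option autoImplicit false

open Finset Filter Topology

open scoped Classical

namespace Pool.Agent.Helper39.PP

open Pool.Agent.Helper88.PP

theorem ch : StmtCH := by
  intro N J f g X C ε hJ hX hε hC hf hg hN h1 h2 h3 h4
  have hkN : 0 < J.card := hJ.card_pos
  have hk : (0 : ℝ) < (J.card : ℝ) := by exact_mod_cast hkN
  set k : ℝ := (J.card : ℝ) with hkdef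
  set F : ℕ → ℝ := fun n => ∑ j ∈ J, f j n with hF
  set G : ℕ → ℝ := fun n => ∑ j ∈ J, g j n with hG
  have hG0 : ∀ n ∈ N, 0 ≤ G n := fun n hn => Finset.sum_nonneg fun j hj => hg j hj n hn
  -- pointwise inequality
  have hpt : ∀ n ∈ N, (if (∀ j ∈ J, f j n ≤ g j n) then (1 : ℝ) else 0) ≤
      2 / k * G n + 4 / k ^ 2 * (F n - k) ^ 2 := by
    intro n hn
    have hG0n := hG0 n hn
    have ha : 0 ≤ 2 / k * G n := by positivity
    have hb : 0 ≤ 4 / k ^ 2 * (F n - k) ^ 2 := by positivity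
    split_ifs with hB
    · have hFG : F n ≤ G n := Finset.sum_le_sum fun j hj => hB j hj
      by_cases hc : k / 2 ≤ G n
      · have : 1 ≤ 2 / k * G n := by
          rw [div_mul_eq_mul_div, le_div_iff₀ hk]
          linarith
        linarith
      · push Not at hc
        have h5 : F n < k / 2 := lt_of_le_of_lt hFG hc
        have h6 : k ^ 2 / 4 ≤ (F n - k) ^ 2 := by nlinarith
        have : 1 ≤ 4 / k ^ 2 * (F n - k) ^ 2 := by
          rw [div_mul_eq_mul_div, le_div_iff₀ (by positivity)]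
          linarith
        linarith
    · linarith
  have hcard : ((N.filter (fun n => ∀ j ∈ J, f j n ≤ g j n)).card : ℝ) ≤
      ∑ n ∈ N, (2 / k * G n + 4 / k ^ 2 * (F n - k) ^ 2) := by
    rw [Finset.card_filter]
    push_cast
    exact Finset.sum_le_sum hpt
  have hsG : ∑ n ∈ N, G n ≤ k * (ε * X) := by
    rw [hG, Finset.sum_comm]
    calc ∑ j ∈ J, ∑ n ∈ N, g j n ≤ ∑ _j ∈ J, ε * X := Finset.sum_le_sum fun j hj => h2 j hj
      _ = k * (ε * X) := by rw [Finset.sum_const, nsmul_eq_mul]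
  have hsF : k * ((1 - ε) * X) ≤ ∑ n ∈ N, F n := by
    rw [hF, Finset.sum_comm]
    calc k * ((1 - ε) * X) = ∑ _j ∈ J, (1 - ε) * X := by rw [Finset.sum_const, nsmul_eq_mul]
      _ ≤ _ := Finset.sum_le_sum fun j hj => h1 j hj
  have hsF2 : ∑ n ∈ N, F n ^ 2 ≤ k * (C * X) + k ^ 2 * ((1 + ε) * X) := by
    have e1 : ∑ n ∈ N, F n ^ 2 = ∑ i ∈ J, ∑ j ∈ J, ∑ n ∈ N, f i n * f j n := by
      calc ∑ n ∈ N, F n ^ 2 = ∑ n ∈ N, ∑ i ∈ J, ∑ j ∈ J, f i n * f j n := by
            refine Finset.sum_congr rfl fun n _ => ?_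
            rw [hF, sq, Finset.sum_mul_sum]
        _ = ∑ i ∈ J, ∑ n ∈ N, ∑ j ∈ J, f i n * f j n := Finset.sum_comm
        _ = _ := by
            refine Finset.sum_congr rfl fun i _ => ?_
            rw [Finset.sum_comm]
    rw [e1]
    have hpos : 0 ≤ (1 + ε) * X := by positivity
    have e2 : ∀ i ∈ J, ∑ j ∈ J, ∑ n ∈ N, f i n * f j n ≤ C * X + k * ((1 + ε) * X) := by
      intro i hi
      calc ∑ j ∈ J, ∑ n ∈ N, f i n * f j n
          ≤ ∑ j ∈ J, ((if j = i then C * X else 0) + (1 + ε) * X) := by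
            refine Finset.sum_le_sum fun j hj => ?_
            split_ifs with hji
            · subst hji
              have := h3 j hj
              have e3 : ∑ n ∈ N, f j n * f j n = ∑ n ∈ N, f j n ^ 2 :=
                Finset.sum_congr rfl fun n _ => by ring
              rw [e3]
              linarith
            · have := h4 i hi j hj (fun h => hji h.symm)
              linarith
        _ = C * X + k * ((1 + ε) * X) := by
            rw [Finset.sum_add_distrib, Finset.sum_ite_eq' J i, if_pos hi, Finset.sum_const,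
              nsmul_eq_mul]
    calc ∑ i ∈ J, ∑ j ∈ J, ∑ n ∈ N, f i n * f j n
        ≤ ∑ _i ∈ J, (C * X + k * ((1 + ε) * X)) := Finset.sum_le_sum e2
      _ = k * (C * X + k * ((1 + ε) * X)) := by rw [Finset.sum_const, nsmul_eq_mul]
      _ = _ := by ring
  have hmain : ∑ n ∈ N, (F n - k) ^ 2 ≤ k * C * X + 4 * ε * k ^ 2 * X := by
    have e4 : ∑ n ∈ N, (F n - k) ^ 2 =
        ∑ n ∈ N, F n ^ 2 - 2 * k * ∑ n ∈ N, F n + k ^ 2 * (N.card : ℝ) := by
      have : ∀ n, (F n - k) ^ 2 = F n ^ 2 - 2 * k * F n + k ^ 2 := fun n => by ring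
      simp_rw [this]
      rw [Finset.sum_add_distrib, Finset.sum_sub_distrib, ← Finset.mul_sum, Finset.sum_const,
        nsmul_eq_mul]
      ring
    rw [e4]
    have e5 : 2 * k * (k * ((1 - ε) * X)) ≤ 2 * k * ∑ n ∈ N, F n :=
      mul_le_mul_of_nonneg_left hsF (by positivity)
    have e6 : k ^ 2 * (N.card : ℝ) ≤ k ^ 2 * ((1 + ε) * X) :=
      mul_le_mul_of_nonneg_left hN (by positivity)
    nlinarith
  calc ((N.filter (fun n => ∀ j ∈ J, f j n ≤ g j n)).card : ℝ)
      ≤ ∑ n ∈ N, (2 / k * G n + 4 / k ^ 2 * (F n - k) ^ 2) := hcard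
    _ = 2 / k * ∑ n ∈ N, G n + 4 / k ^ 2 * ∑ n ∈ N, (F n - k) ^ 2 := by
        rw [Finset.sum_add_distrib, ← Finset.mul_sum, ← Finset.mul_sum]
    _ ≤ 2 / k * (k * (ε * X)) + 4 / k ^ 2 * (k * C * X + 4 * ε * k ^ 2 * X) :=
        add_le_add (mul_le_mul_of_nonneg_left hsG (by positivity))
          (mul_le_mul_of_nonneg_left hmain (by positivity))
    _ = (18 * ε + 4 * C / k) * X := by
        field_simp
        ring

end Pool.Agent.Helper39.PP
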